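import Pool.Agent.TH703.Tur.Six0
import Pool.Agent.H369R2.TD.Odd

/-!
# `t(7,6) ≤ 121/512` (helper703)
-/

open Finset

namespace Pool.Agent.TH703.Tur

/-- the rule for six points with colour classes `X`, `Y` -/
noncomputable def tf {α : Type} (g : α × α → Bool) : List α → List α → Bool
  | [], [_, _, _, _, _, _] => true
  | [_, _, _, _, _, _], [] => true
  | [x1, x2], [y1, y2, y3, y4] =>
    p24 (xo (g (x1, y1)) (g (x2, y1))) (xo (g (x1, y2)) (g (x2, y2))) (xo (g (x1, y3)) (g (x2,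
      y3))) (xo (g (x1, y4)) (g (x2, y4))) (g (y1, y2)) (g (y1, y3)) (g (y1, y4)) (g (y2, y3)) (g
      (y2, y4)) (g (y3, y4))
  | [x1, x2, x3, x4], [y1, y2] =>
    p24 (xo (g (x1, y1)) (g (x1, y2))) (xo (g (x2, y1)) (g (x2, y2))) (xo (g (x3, y1)) (g (x3,
      y2))) (xo (g (x4, y1)) (g (x4, y2))) (g (x1, x2)) (g (x1, x3)) (g (x1, x4)) (g (x2, x3)) (g
      (x2, x4)) (g (x3, x4))
  | [x1, x2, x3], [y1, y2, y3] =>
    p33 (xo (g (x1, y1)) (g (x2, y1))) (xo (g (x1, y2)) (g (x2, y2))) (xo (g (x1, y3)) (g (x2,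
      y3))) (xo (g (x1, y1)) (g (x3, y1))) (xo (g (x1, y2)) (g (x3, y2))) (xo (g (x1, y3)) (g (x3,
      y3))) (xo (g (x1, x2)) (xo (g (x1, x3)) (xo (g (x2, x3)) (xo (g (y1, y2)) (xo (g (y1, y3))
      (g (y2, y3)))))))
  | _, _ => false

theorem xo_six (a b c d e f : Bool) :
    xo a (xo b (xo c (xo d (xo e f)))) = xo d (xo e (xo f (xo a (xo b c)))) := by
  cases a <;> cases b <;> cases c <;> cases d <;> cases e <;> cases f <;> rfl

theorem sub_erase {α : Type} (l : List α) (k : ℕ) : (l.eraseIdx k).Sublist l :=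
  List.eraseIdx_sublist l k

theorem tf_cover {α : Type} (g : α × α → Bool) (X Y : List α) (h : X.length + Y.length = 7) :
    ∃ X' Y' : List α, X'.Sublist X ∧ Y'.Sublist Y ∧ tf g X' Y' = true := by
  have hX : X.length = 0 ∨ X.length = 1 ∨ X.length = 2 ∨ X.length = 3 ∨ X.length = 4 ∨
      X.length = 5 ∨ X.length = 6 ∨ X.length = 7 := by omega
  rcases hX with hX | hX | hX | hX | hX | hX | hX | hX
  · have hY : Y.length = 7 := by omega
    match X, hX, Y, hY with
    | [], _, [y1, y2, y3, y4, y5, y6, y7], _ =>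
      exact ⟨[], [y1, y2, y3, y4, y5, y6, y7].eraseIdx 6, List.Sublist.refl _, sub_erase _ _, rfl⟩
  · have hY : Y.length = 6 := by omega
    match X, hX, Y, hY with
    | [x1], _, [y1, y2, y3, y4, y5, y6], _ =>
      exact ⟨[x1].eraseIdx 0, [y1, y2, y3, y4, y5, y6], sub_erase _ _, List.Sublist.refl _, rfl⟩
  · have hY : Y.length = 5 := by omega
    match X, hX, Y, hY with
    | [x1, x2], _, [y1, y2, y3, y4, y5], _ =>
      have H : p24 (xo (g (x1, y2)) (g (x2, y2))) (xo (g (x1, y3)) (g (x2, y3))) (xo (g (x1, y4)) (g (x2, y4))) (xo (g (x1, y5)) (g (x2, y5))) (g (y2, y3)) (g (y2, y4)) (g (y2, y5)) (g (y3, y4)) (g (y3, y5)) (g (y4, y5)) = true ∨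
          p24 (xo (g (x1, y1)) (g (x2, y1))) (xo (g (x1, y3)) (g (x2, y3))) (xo (g (x1, y4)) (g (x2, y4))) (xo (g (x1, y5)) (g (x2, y5))) (g (y1, y3)) (g (y1, y4)) (g (y1, y5)) (g (y3, y4)) (g (y3, y5)) (g (y4, y5)) = true ∨
          p24 (xo (g (x1, y1)) (g (x2, y1))) (xo (g (x1, y2)) (g (x2, y2))) (xo (g (x1, y4)) (g (x2, y4))) (xo (g (x1, y5)) (g (x2, y5))) (g (y1, y2)) (g (y1, y4)) (g (y1, y5)) (g (y2, y4)) (g (y2, y5)) (g (y4, y5)) = true ∨
          p24 (xo (g (x1, y1)) (g (x2, y1))) (xo (g (x1, y2)) (g (x2, y2))) (xo (g (x1, y3)) (g (x2, y3))) (xo (g (x1, y5)) (g (x2, y5))) (g (y1, y2)) (g (y1, y3)) (g (y1, y5)) (g (y2, y3)) (g (y2, y5)) (g (y3, y5)) = true ∨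
          p24 (xo (g (x1, y1)) (g (x2, y1))) (xo (g (x1, y2)) (g (x2, y2))) (xo (g (x1, y3)) (g (x2, y3))) (xo (g (x1, y4)) (g (x2, y4))) (g (y1, y2)) (g (y1, y3)) (g (y1, y4)) (g (y2, y3)) (g (y2, y4)) (g (y3, y4)) = true :=
        chk25_spec (xo (g (x1, y1)) (g (x2, y1))) (xo (g (x1, y2)) (g (x2, y2))) (xo (g (x1, y3)) (g (x2, y3))) (xo (g (x1, y4)) (g (x2, y4))) (xo (g (x1, y5)) (g (x2, y5))) (g (y1, y2)) (g (y1, y3)) (g (y1, y4)) (g (y1, y5)) (g (y2, y3)) (g (y2, y4)) (g (y2, y5)) (g (y3, y4)) (g (y3, y5)) (g (y4, y5))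
      rcases H with h | h | h | h | h
      · exact ⟨[x1, x2], [y1, y2, y3, y4, y5].eraseIdx 0, List.Sublist.refl _, sub_erase _ _, h⟩
      · exact ⟨[x1, x2], [y1, y2, y3, y4, y5].eraseIdx 1, List.Sublist.refl _, sub_erase _ _, h⟩
      · exact ⟨[x1, x2], [y1, y2, y3, y4, y5].eraseIdx 2, List.Sublist.refl _, sub_erase _ _, h⟩
      · exact ⟨[x1, x2], [y1, y2, y3, y4, y5].eraseIdx 3, List.Sublist.refl _, sub_erase _ _, h⟩
      · exact ⟨[x1, x2], [y1, y2, y3, y4, y5].eraseIdx 4, List.Sublist.refl _, sub_erase _ _, h⟩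
  · have hY : Y.length = 4 := by omega
    match X, hX, Y, hY with
    | [x1, x2, x3], _, [y1, y2, y3, y4], _ =>
      have H : p24 (xo (g (x1, y1)) (g (x2, y1))) (xo (g (x1, y2)) (g (x2, y2))) (xo (g (x1, y3)) (g (x2, y3))) (xo (g (x1, y4)) (g (x2, y4))) (g (y1, y2)) (g (y1, y3)) (g (y1, y4)) (g (y2, y3)) (g (y2, y4)) (g (y3, y4)) = true ∨
          p24 (xo (g (x1, y1)) (g (x3, y1))) (xo (g (x1, y2)) (g (x3, y2))) (xo (g (x1, y3)) (g (x3, y3))) (xo (g (x1, y4)) (g (x3, y4))) (g (y1, y2)) (g (y1, y3)) (g (y1, y4)) (g (y2, y3)) (g (y2, y4)) (g (y3, y4)) = true ∨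
          p24 (xo (g (x2, y1)) (g (x3, y1))) (xo (g (x2, y2)) (g (x3, y2))) (xo (g (x2, y3)) (g (x3, y3))) (xo (g (x2, y4)) (g (x3, y4))) (g (y1, y2)) (g (y1, y3)) (g (y1, y4)) (g (y2, y3)) (g (y2, y4)) (g (y3, y4)) = true ∨
          p33 (xo (g (x1, y2)) (g (x2, y2))) (xo (g (x1, y3)) (g (x2, y3))) (xo (g (x1, y4)) (g (x2, y4))) (xo (g (x1, y2)) (g (x3, y2))) (xo (g (x1, y3)) (g (x3, y3))) (xo (g (x1, y4)) (g (x3, y4))) (xo (g (x1, x2)) (xo (g (x1, x3)) (xo (g (x2, x3)) (xo (g (y2, y3)) (xo (g (y2, y4)) (g (y3, y4))))))) = true ∨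
          p33 (xo (g (x1, y1)) (g (x2, y1))) (xo (g (x1, y3)) (g (x2, y3))) (xo (g (x1, y4)) (g (x2, y4))) (xo (g (x1, y1)) (g (x3, y1))) (xo (g (x1, y3)) (g (x3, y3))) (xo (g (x1, y4)) (g (x3, y4))) (xo (g (x1, x2)) (xo (g (x1, x3)) (xo (g (x2, x3)) (xo (g (y1, y3)) (xo (g (y1, y4)) (g (y3, y4))))))) = true ∨
          p33 (xo (g (x1, y1)) (g (x2, y1))) (xo (g (x1, y2)) (g (x2, y2))) (xo (g (x1, y4)) (g (x2, y4))) (xo (g (x1, y1)) (g (x3, y1))) (xo (g (x1, y2)) (g (x3, y2))) (xo (g (x1, y4)) (g (x3, y4))) (xo (g (x1, x2)) (xo (g (x1, x3)) (xo (g (x2, x3)) (xo (g (y1, y2)) (xo (g (y1, y4)) (g (y2, y4))))))) = true ∨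
          p33 (xo (g (x1, y1)) (g (x2, y1))) (xo (g (x1, y2)) (g (x2, y2))) (xo (g (x1, y3)) (g (x2, y3))) (xo (g (x1, y1)) (g (x3, y1))) (xo (g (x1, y2)) (g (x3, y2))) (xo (g (x1, y3)) (g (x3, y3))) (xo (g (x1, x2)) (xo (g (x1, x3)) (xo (g (x2, x3)) (xo (g (y1, y2)) (xo (g (y1, y3)) (g (y2, y3))))))) = true := by
        have H0 := chk34_spec (xo (g (x1, y1)) (g (x2, y1))) (xo (g (x1, y2)) (g (x2, y2))) (xo (g (x1, y3)) (g (x2, y3))) (xo (g (x1, y4)) (g (x2, y4))) (xo (g (x1, y1)) (g (x3, y1))) (xo (g (x1, y2)) (g (x3, y2))) (xo (g (x1, y3)) (g (x3, y3))) (xo (g (x1, y4)) (g (x3, y4))) (g (y1, y2)) (g (y1, y3)) (g (y1, y4)) (g (y2, y3)) (g (y2, y4)) (g (y3, y4)) (xo (g (x1, x2)) (xo (g (x1, x3)) (g (x2, x3))))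
        simp only [xo_cancel] at H0
        simp only [xo_assoc] at H0
        exact H0
      rcases H with h | h | h | h | h | h | h
      · exact ⟨[x1, x2, x3].eraseIdx 2, [y1, y2, y3, y4], sub_erase _ _, List.Sublist.refl _, h⟩
      · exact ⟨[x1, x2, x3].eraseIdx 1, [y1, y2, y3, y4], sub_erase _ _, List.Sublist.refl _, h⟩
      · exact ⟨[x1, x2, x3].eraseIdx 0, [y1, y2, y3, y4], sub_erase _ _, List.Sublist.refl _, h⟩
      · exact ⟨[x1, x2, x3], [y1, y2, y3, y4].eraseIdx 0, List.Sublist.refl _, sub_erase _ _, h⟩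
      · exact ⟨[x1, x2, x3], [y1, y2, y3, y4].eraseIdx 1, List.Sublist.refl _, sub_erase _ _, h⟩
      · exact ⟨[x1, x2, x3], [y1, y2, y3, y4].eraseIdx 2, List.Sublist.refl _, sub_erase _ _, h⟩
      · exact ⟨[x1, x2, x3], [y1, y2, y3, y4].eraseIdx 3, List.Sublist.refl _, sub_erase _ _, h⟩
  · have hY : Y.length = 3 := by omega
    match X, hX, Y, hY with
    | [x1, x2, x3, x4], _, [y1, y2, y3], _ =>
      have H0 := chk34_spec (xo (g (x1, y1)) (g (x1, y2))) (xo (g (x2, y1)) (g (x2, y2))) (xo (g (x3, y1)) (g (x3, y2))) (xo (g (x4, y1)) (g (x4, y2))) (xo (g (x1, y1)) (g (x1, y3))) (xo (g (x2, y1)) (g (x2, y3))) (xo (g (x3, y1)) (g (x3, y3))) (xo (g (x4, y1)) (g (x4, y3))) (g (x1, x2)) (g (x1, x3)) (g (x1, x4)) (g (x2, x3)) (g (x2, x4)) (g (x3, x4)) (xo (g (y1, y2)) (xo (g (y1, y3)) (g (y2, y3))))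
      simp only [xo_cancel] at H0
      simp only [xo_assoc] at H0
      rcases H0 with h | h | h | h | h | h | h
      · exact ⟨[x1, x2, x3, x4], [y1, y2, y3].eraseIdx 2, List.Sublist.refl _, sub_erase _ _, h⟩
      · exact ⟨[x1, x2, x3, x4], [y1, y2, y3].eraseIdx 1, List.Sublist.refl _, sub_erase _ _, h⟩
      · exact ⟨[x1, x2, x3, x4], [y1, y2, y3].eraseIdx 0, List.Sublist.refl _, sub_erase _ _, h⟩
      · refine ⟨[x1, x2, x3, x4].eraseIdx 0, [y1, y2, y3], sub_erase _ _, List.Sublist.refl _, ?_⟩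
        show p33 (xo (g (x2, y1)) (g (x3, y1))) (xo (g (x2, y2)) (g (x3, y2))) (xo (g (x2, y3)) (g (x3, y3))) (xo (g (x2, y1)) (g (x4, y1))) (xo (g (x2, y2)) (g (x4, y2))) (xo (g (x2, y3)) (g (x4, y3))) (xo (g (x2, x3)) (xo (g (x2, x4)) (xo (g (x3, x4)) (xo (g (y1, y2)) (xo (g (y1, y3)) (g (y2, y3))))))) = true
        rw [p33_tr, xo_six]
        exact h
      · refine ⟨[x1, x2, x3, x4].eraseIdx 1, [y1, y2, y3], sub_erase _ _, List.Sublist.refl _, ?_⟩
        show p33 (xo (g (x1, y1)) (g (x3, y1))) (xo (g (x1, y2)) (g (x3, y2))) (xo (g (x1, y3)) (g (x3, y3))) (xo (g (x1, y1)) (g (x4, y1))) (xo (g (x1, y2)) (g (x4, y2))) (xo (g (x1, y3)) (g (x4, y3))) (xo (g (x1, x3)) (xo (g (x1, x4)) (xo (g (x3, x4)) (xo (g (y1, y2)) (xo (g (y1, y3)) (g (y2, y3))))))) = true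
        rw [p33_tr, xo_six]
        exact h
      · refine ⟨[x1, x2, x3, x4].eraseIdx 2, [y1, y2, y3], sub_erase _ _, List.Sublist.refl _, ?_⟩
        show p33 (xo (g (x1, y1)) (g (x2, y1))) (xo (g (x1, y2)) (g (x2, y2))) (xo (g (x1, y3)) (g (x2, y3))) (xo (g (x1, y1)) (g (x4, y1))) (xo (g (x1, y2)) (g (x4, y2))) (xo (g (x1, y3)) (g (x4, y3))) (xo (g (x1, x2)) (xo (g (x1, x4)) (xo (g (x2, x4)) (xo (g (y1, y2)) (xo (g (y1, y3)) (g (y2, y3))))))) = true
        rw [p33_tr, xo_six]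
        exact h
      · refine ⟨[x1, x2, x3, x4].eraseIdx 3, [y1, y2, y3], sub_erase _ _, List.Sublist.refl _, ?_⟩
        show p33 (xo (g (x1, y1)) (g (x2, y1))) (xo (g (x1, y2)) (g (x2, y2))) (xo (g (x1, y3)) (g (x2, y3))) (xo (g (x1, y1)) (g (x3, y1))) (xo (g (x1, y2)) (g (x3, y2))) (xo (g (x1, y3)) (g (x3, y3))) (xo (g (x1, x2)) (xo (g (x1, x3)) (xo (g (x2, x3)) (xo (g (y1, y2)) (xo (g (y1, y3)) (g (y2, y3))))))) = true
        rw [p33_tr, xo_six]
        exact h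
  · have hY : Y.length = 2 := by omega
    match X, hX, Y, hY with
    | [x1, x2, x3, x4, x5], _, [y1, y2], _ =>
      have H : p24 (xo (g (x2, y1)) (g (x2, y2))) (xo (g (x3, y1)) (g (x3, y2))) (xo (g (x4, y1)) (g (x4, y2))) (xo (g (x5, y1)) (g (x5, y2))) (g (x2, x3)) (g (x2, x4)) (g (x2, x5)) (g (x3, x4)) (g (x3, x5)) (g (x4, x5)) = true ∨
          p24 (xo (g (x1, y1)) (g (x1, y2))) (xo (g (x3, y1)) (g (x3, y2))) (xo (g (x4, y1)) (g (x4, y2))) (xo (g (x5, y1)) (g (x5, y2))) (g (x1, x3)) (g (x1, x4)) (g (x1, x5)) (g (x3, x4)) (g (x3, x5)) (g (x4, x5)) = true ∨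
          p24 (xo (g (x1, y1)) (g (x1, y2))) (xo (g (x2, y1)) (g (x2, y2))) (xo (g (x4, y1)) (g (x4, y2))) (xo (g (x5, y1)) (g (x5, y2))) (g (x1, x2)) (g (x1, x4)) (g (x1, x5)) (g (x2, x4)) (g (x2, x5)) (g (x4, x5)) = true ∨
          p24 (xo (g (x1, y1)) (g (x1, y2))) (xo (g (x2, y1)) (g (x2, y2))) (xo (g (x3, y1)) (g (x3, y2))) (xo (g (x5, y1)) (g (x5, y2))) (g (x1, x2)) (g (x1, x3)) (g (x1, x5)) (g (x2, x3)) (g (x2, x5)) (g (x3, x5)) = true ∨
          p24 (xo (g (x1, y1)) (g (x1, y2))) (xo (g (x2, y1)) (g (x2, y2))) (xo (g (x3, y1)) (g (x3, y2))) (xo (g (x4, y1)) (g (x4, y2))) (g (x1, x2)) (g (x1, x3)) (g (x1, x4)) (g (x2, x3)) (g (x2, x4)) (g (x3, x4)) = true :=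
        chk25_spec (xo (g (x1, y1)) (g (x1, y2))) (xo (g (x2, y1)) (g (x2, y2))) (xo (g (x3, y1)) (g (x3, y2))) (xo (g (x4, y1)) (g (x4, y2))) (xo (g (x5, y1)) (g (x5, y2))) (g (x1, x2)) (g (x1, x3)) (g (x1, x4)) (g (x1, x5)) (g (x2, x3)) (g (x2, x4)) (g (x2, x5)) (g (x3, x4)) (g (x3, x5)) (g (x4, x5))
      rcases H with h | h | h | h | h
      · exact ⟨[x1, x2, x3, x4, x5].eraseIdx 0, [y1, y2], sub_erase _ _, List.Sublist.refl _, h⟩
      · exact ⟨[x1, x2, x3, x4, x5].eraseIdx 1, [y1, y2], sub_erase _ _, List.Sublist.refl _, h⟩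
      · exact ⟨[x1, x2, x3, x4, x5].eraseIdx 2, [y1, y2], sub_erase _ _, List.Sublist.refl _, h⟩
      · exact ⟨[x1, x2, x3, x4, x5].eraseIdx 3, [y1, y2], sub_erase _ _, List.Sublist.refl _, h⟩
      · exact ⟨[x1, x2, x3, x4, x5].eraseIdx 4, [y1, y2], sub_erase _ _, List.Sublist.refl _, h⟩
  · have hY : Y.length = 1 := by omega
    match X, hX, Y, hY with
    | [x1, x2, x3, x4, x5, x6], _, [y1], _ =>
      exact ⟨[x1, x2, x3, x4, x5, x6], [y1].eraseIdx 0, List.Sublist.refl _, sub_erase _ _, rfl⟩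
  · have hY : Y.length = 0 := by omega
    match X, hX, Y, hY with
    | [x1, x2, x3, x4, x5, x6, x7], _, [], _ =>
      exact ⟨[x1, x2, x3, x4, x5, x6, x7].eraseIdx 6, [], sub_erase _ _, List.Sublist.refl _, rfl⟩

theorem tf_len {α : Type} (g : α × α → Bool) (X Y : List α) (h : tf g X Y = true) :
    X.length + Y.length = 6 := by
  unfold tf at h
  split at h <;> first | rfl | (exact absurd h (by simp))

/-! ### The density -/

/-- the summand as a function of the word read off -/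
noncomputable def w24 (l : List Bool) : ℕ :=
  tn (p24 (xo (l.getD 0 false) (l.getD 4 false)) (xo (l.getD 1 false) (l.getD 5 false))
    (xo (l.getD 2 false) (l.getD 6 false)) (xo (l.getD 3 false) (l.getD 7 false))
    (l.getD 8 false) (l.getD 9 false) (l.getD 10 false) (l.getD 11 false) (l.getD 12 false)
    (l.getD 13 false))

noncomputable def w33 (l : List Bool) : ℕ :=
  tn (p33 (xo (l.getD 0 false) (l.getD 3 false)) (xo (l.getD 1 false) (l.getD 4 false))
    (xo (l.getD 2 false) (l.getD 5 false)) (xo (l.getD 0 false) (l.getD 6 false))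
    (xo (l.getD 1 false) (l.getD 7 false)) (xo (l.getD 2 false) (l.getD 8 false))
    (xo (l.getD 9 false) (xo (l.getD 10 false) (xo (l.getD 11 false) (xo (l.getD 12 false)
      (xo (l.getD 13 false) (l.getD 14 false)))))))

theorem sumB24 : sumB 14 w24 = 5120 := sum24_eq

theorem sumB33 : sumB 15 w33 = 6144 := sum33_eq

theorem dens24 {α : Type} [Fintype α] [DecidableEq α] (x1 x2 y1 y2 y3 y4 : α)
    (h : ([x1, x2, y1, y2, y3, y4] : List α).Nodup) :
    16 * ∑ G : α × α → Bool, tn (tf G [x1, x2] [y1, y2, y3, y4]) = 5 * Fintype.card (α × α → Bool) := by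
  have h0 : ([(x1, y1), (x1, y2), (x1, y3), (x1, y4), (x2, y1), (x2, y2), (x2, y3), (x2, y4), (y1, y2), (y1, y3), (y1, y4), (y2, y3), (y2, y4), (y3, y4)] : List (α × α)).Nodup := by
    simp only [List.nodup_cons, List.mem_cons, List.not_mem_nil, Prod.mk.injEq, or_false, not_or,
      List.nodup_nil, and_true, not_false_eq_true] at h ⊢
    tauto
  have h1 := sumB_eq _ h0 w24
  simp only [List.length_cons, List.length_nil] at h1
  rw [sumB24] at h1
  have h2 : ∀ G : α × α → Bool, w24 (List.map G [(x1, y1), (x1, y2), (x1, y3), (x1, y4), (x2, y1), (x2, y2), (x2, y3), (x2, y4), (y1, y2), (y1, y3), (y1, y4), (y2, y3), (y2, y4), (y3, y4)]) =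
      tn (tf G [x1, x2] [y1, y2, y3, y4]) := fun G => rfl
  simp only [h2] at h1
  omega

theorem dens42 {α : Type} [Fintype α] [DecidableEq α] (x1 x2 x3 x4 y1 y2 : α)
    (h : ([x1, x2, x3, x4, y1, y2] : List α).Nodup) :
    16 * ∑ G : α × α → Bool, tn (tf G [x1, x2, x3, x4] [y1, y2]) = 5 * Fintype.card (α × α → Bool) := by
  have h0 : ([(x1, y1), (x2, y1), (x3, y1), (x4, y1), (x1, y2), (x2, y2), (x3, y2), (x4, y2), (x1, x2), (x1, x3), (x1, x4), (x2, x3), (x2, x4), (x3, x4)] : List (α × α)).Nodup := by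
    simp only [List.nodup_cons, List.mem_cons, List.not_mem_nil, Prod.mk.injEq, or_false, not_or,
      List.nodup_nil, and_true, not_false_eq_true] at h ⊢
    tauto
  have h1 := sumB_eq _ h0 w24
  simp only [List.length_cons, List.length_nil] at h1
  rw [sumB24] at h1
  have h2 : ∀ G : α × α → Bool, w24 (List.map G [(x1, y1), (x2, y1), (x3, y1), (x4, y1), (x1, y2), (x2, y2), (x3, y2), (x4, y2), (x1, x2), (x1, x3), (x1, x4), (x2, x3), (x2, x4), (x3, x4)]) =
      tn (tf G [x1, x2, x3, x4] [y1, y2]) := fun G => rfl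
  simp only [h2] at h1
  omega

theorem dens33 {α : Type} [Fintype α] [DecidableEq α] (x1 x2 x3 y1 y2 y3 : α)
    (h : ([x1, x2, x3, y1, y2, y3] : List α).Nodup) :
    16 * ∑ G : α × α → Bool, tn (tf G [x1, x2, x3] [y1, y2, y3]) = 3 * Fintype.card (α × α → Bool) := by
  have h0 : ([(x1, y1), (x1, y2), (x1, y3), (x2, y1), (x2, y2), (x2, y3), (x3, y1), (x3, y2), (x3, y3), (x1, x2), (x1, x3), (x2, x3), (y1, y2), (y1, y3), (y2, y3)] : List (α × α)).Nodup := by
    simp only [List.nodup_cons, List.mem_cons, List.not_mem_nil, Prod.mk.injEq, or_false, not_or,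
      List.nodup_nil, and_true, not_false_eq_true] at h ⊢
    tauto
  have h1 := sumB_eq _ h0 w33
  simp only [List.length_cons, List.length_nil] at h1
  rw [sumB33] at h1
  have h2 : ∀ G : α × α → Bool, w33 (List.map G [(x1, y1), (x1, y2), (x1, y3), (x2, y1), (x2, y2), (x2, y3), (x3, y1), (x3, y2), (x3, y3), (x1, x2), (x1, x3), (x2, x3), (y1, y2), (y1, y3), (y2, y3)]) =
      tn (tf G [x1, x2, x3] [y1, y2, y3]) := fun G => rfl
  simp only [h2] at h1
  omega

/-- the densities (times 16) -/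
def phi : ℕ → ℕ
  | 0 => 16
  | 2 => 5
  | 3 => 3
  | 4 => 5
  | 6 => 16
  | _ => 0

theorem dens {α : Type} [Fintype α] [DecidableEq α] (X Y : List α) (h : (X ++ Y).Nodup)
    (hc : X.length + Y.length = 6) :
    16 * ∑ G : α × α → Bool, tn (tf G X Y) = phi X.length * Fintype.card (α × α → Bool) := by
  have hX : X.length = 0 ∨ X.length = 1 ∨ X.length = 2 ∨ X.length = 3 ∨ X.length = 4 ∨
      X.length = 5 ∨ X.length = 6 := by omega
  rcases hX with hX | hX | hX | hX | hX | hX | hX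
  · have hY : Y.length = 6 := by omega
    match X, hX, Y, hY with
    | [], _, [y1, y2, y3, y4, y5, y6], _ =>
      have h1 : ∀ G : α × α → Bool, tn (tf G [] [y1, y2, y3, y4, y5, y6]) = 1 := fun G => rfl
      simp only [h1, Finset.sum_const, smul_eq_mul, mul_one, Finset.card_univ]
      rfl
  · have hY : Y.length = 5 := by omega
    match X, hX, Y, hY with
    | [x1], _, [y1, y2, y3, y4, y5], _ =>
      have h1 : ∀ G : α × α → Bool, tn (tf G [x1] [y1, y2, y3, y4, y5]) = 0 := fun G => rfl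
      simp only [h1, Finset.sum_const, smul_eq_mul, mul_zero]
      show 0 = 0 * _
      rw [zero_mul]
  · have hY : Y.length = 4 := by omega
    match X, hX, Y, hY with
    | [x1, x2], _, [y1, y2, y3, y4], _ => exact dens24 x1 x2 y1 y2 y3 y4 h
  · have hY : Y.length = 3 := by omega
    match X, hX, Y, hY with
    | [x1, x2, x3], _, [y1, y2, y3], _ => exact dens33 x1 x2 x3 y1 y2 y3 h
  · have hY : Y.length = 2 := by omega
    match X, hX, Y, hY with
    | [x1, x2, x3, x4], _, [y1, y2], _ => exact dens42 x1 x2 x3 x4 y1 y2 h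
  · have hY : Y.length = 1 := by omega
    match X, hX, Y, hY with
    | [x1, x2, x3, x4, x5], _, [y1], _ =>
      have h1 : ∀ G : α × α → Bool, tn (tf G [x1, x2, x3, x4, x5] [y1]) = 0 := fun G => rfl
      simp only [h1, Finset.sum_const, smul_eq_mul, mul_zero]
      show 0 = 0 * _
      rw [zero_mul]
  · have hY : Y.length = 0 := by omega
    match X, hX, Y, hY with
    | [x1, x2, x3, x4, x5, x6], _, [], _ =>
      have h1 : ∀ G : α × α → Bool, tn (tf G [x1, x2, x3, x4, x5, x6] []) = 1 := fun G => rfl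
      simp only [h1, Finset.sum_const, smul_eq_mul, mul_one, Finset.card_univ]
      rfl

/-- the colour classes of a set, as sorted lists -/
def srt {n : ℕ} (b : Fin n → Bool) (c : Bool) (Z : Finset (Fin n)) : List (Fin n) :=
  (Z.filter fun x => b x = c).sort (· ≤ ·)

theorem mem_srt {n : ℕ} (b : Fin n → Bool) (c : Bool) (Z : Finset (Fin n)) (x : Fin n) :
    x ∈ srt b c Z ↔ x ∈ Z ∧ b x = c := by
  rw [srt, Finset.mem_sort, Finset.mem_filter]

theorem srt_len {n : ℕ} (b : Fin n → Bool) (c : Bool) (Z : Finset (Fin n)) :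
    (srt b c Z).length = (Z.filter fun x => b x = c).card := by
  rw [srt, Finset.length_sort]

theorem srt_len_add {n : ℕ} (b : Fin n → Bool) (Z : Finset (Fin n)) :
    (srt b true Z).length + (srt b false Z).length = Z.card := by
  rw [srt_len, srt_len, ← Finset.card_filter_add_card_filter_not (s := Z) (fun x => b x = true)]
  congr 2
  ext x
  simp

theorem srt_nodup {n : ℕ} (b : Fin n → Bool) (Z : Finset (Fin n)) :
    (srt b true Z ++ srt b false Z).Nodup := by
  rw [List.nodup_append]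
  refine ⟨Finset.sort_nodup _ _, Finset.sort_nodup _ _, ?_⟩
  intro x hx y hy hxy
  rw [mem_srt] at hx hy
  rw [hxy, hy.2] at hx
  exact absurd hx.2 (by simp)

theorem srt_sub {n : ℕ} (b : Fin n → Bool) (c : Bool) (S Z : Finset (Fin n)) (l : List (Fin n))
    (hl : l.Sublist (srt b c S)) (hZ : ∀ x, x ∈ Z ∧ b x = c ↔ x ∈ l) : srt b c Z = l := by
  have hnd : l.Nodup := (Finset.sort_nodup _ _).sublist hl
  have hs : l.Pairwise (· ≤ ·) := (Finset.pairwise_sort _ _).sublist hl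
  have h1 : (Z.filter fun x => b x = c) = l.toFinset := by
    ext x
    rw [Finset.mem_filter, List.mem_toFinset, hZ]
  rw [srt, h1]
  exact (List.toFinset_sort _ hnd).2 hs

theorem count_sort {n : ℕ} (b : Fin n → Bool) (Z : Finset (Fin n)) :
    ((Z.sort (· ≤ ·)).map b).count true = (Z.filter fun x => b x = true).card := by
  have h1 : (Z.filter fun x => b x = true).card = Multiset.countP (fun x => b x = true) Z.val := by
    rw [Multiset.countP_eq_card_filter]
    rfl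
  rw [h1, ← Finset.sort_eq Z (· ≤ ·), Multiset.coe_countP, List.count_eq_countP, List.countP_map]
  congr 1

theorem sumB6 : sumB 6 (fun l => phi (l.count true)) = 242 := by decide +kernel

theorem rnd_six (n : ℕ) : Pool.Agent.H369R2.TD.Rnd n 6 (121 / 512) 0 := by
  classical
  refine ⟨(Fin n → Bool) × (Fin n × Fin n → Bool), inferInstance, inferInstance,
    fun ω => univ.filter fun Z => Z.card = 6 ∧ tf ω.2 (srt ω.1 true Z) (srt ω.1 false Z) = true,
    ?_, ?_, ?_⟩
  · intro ω Z hZ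
    exact (Finset.mem_filter.1 hZ).2.1
  · intro Z hZ
    have h1 : (univ.filter fun ω : (Fin n → Bool) × (Fin n × Fin n → Bool) =>
        Z ∈ univ.filter fun Z : Finset (Fin n) =>
          Z.card = 6 ∧ tf ω.2 (srt ω.1 true Z) (srt ω.1 false Z) = true).card =
        ∑ b : Fin n → Bool, ∑ G : Fin n × Fin n → Bool,
          tn (tf G (srt b true Z) (srt b false Z)) := by
      rw [Finset.card_filter, Fintype.sum_prod_type]
      refine Finset.sum_congr rfl fun b _ => Finset.sum_congr rfl fun G _ => ?_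
      simp only [Finset.mem_filter, mem_univ, true_and, hZ]
      cases tf G (srt b true Z) (srt b false Z) <;> simp [tn]
    have h2 : ∀ b : Fin n → Bool, 16 * ∑ G : Fin n × Fin n → Bool,
        tn (tf G (srt b true Z) (srt b false Z)) =
        phi (((Z.sort (· ≤ ·)).map b).count true) * Fintype.card (Fin n × Fin n → Bool) := by
      intro b
      rw [dens _ _ (srt_nodup b Z) (by rw [srt_len_add, hZ])]
      rw [srt_len, count_sort]
    have h3 := sumB_eq (Z.sort (· ≤ ·)) (Finset.sort_nodup _ _) (fun l => phi (l.count true))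
    rw [Finset.length_sort, hZ, sumB6] at h3
    have h4 : 1024 * (∑ b : Fin n → Bool, ∑ G : Fin n × Fin n → Bool,
        tn (tf G (srt b true Z) (srt b false Z))) =
        242 * Fintype.card ((Fin n → Bool) × (Fin n × Fin n → Bool)) := by
      rw [Fintype.card_prod, ← mul_assoc, ← h3, show (1024 : ℕ) = 2 ^ 6 * 16 by norm_num,
        mul_assoc, Finset.mul_sum, Finset.sum_congr rfl fun b _ => h2 b, ← Finset.sum_mul]
      ring
    have h5 : (1024 : ℝ) * ((∑ b : Fin n → Bool, ∑ G : Fin n × Fin n → Bool,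
        tn (tf G (srt b true Z) (srt b false Z)) : ℕ) : ℝ) =
        242 * (Fintype.card ((Fin n → Bool) × (Fin n × Fin n → Bool)) : ℝ) := by
      exact_mod_cast h4
    rw [← h1] at h5
    have h6 : (((univ.filter fun ω : (Fin n → Bool) × (Fin n × Fin n → Bool) =>
        Z ∈ univ.filter fun Z : Finset (Fin n) =>
          Z.card = 6 ∧ tf ω.2 (srt ω.1 true Z) (srt ω.1 false Z) = true).card : ℕ) : ℝ) ≤
        121 / 512 * (Fintype.card ((Fin n → Bool) × (Fin n × Fin n → Bool)) : ℝ) := by linarith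
    convert h6
  · intro S hS
    rw [zero_mul]
    refine le_of_eq ?_
    rw [Nat.cast_eq_zero, Finset.card_eq_zero, Finset.filter_eq_empty_iff]
    rintro ⟨b, G⟩ _
    rw [not_not]
    obtain ⟨X', Y', hX, hY, hT⟩ := tf_cover G (srt b true S) (srt b false S)
      (by rw [srt_len_add, hS])
    have hX' : ∀ x ∈ X', x ∈ S ∧ b x = true := fun x hx => (mem_srt _ _ _ _).1 (hX.subset hx)
    have hY' : ∀ x ∈ Y', x ∈ S ∧ b x = false := fun x hx => (mem_srt _ _ _ _).1 (hY.subset hx)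
    have e1 : srt b true (X'.toFinset ∪ Y'.toFinset) = X' := by
      refine srt_sub b true S _ X' hX fun x => ?_
      rw [Finset.mem_union, List.mem_toFinset, List.mem_toFinset]
      constructor
      · rintro ⟨h | h, hb⟩
        · exact h
        · rw [(hY' x h).2] at hb
          exact absurd hb (by simp)
      · intro h
        exact ⟨Or.inl h, (hX' x h).2⟩
    have e2 : srt b false (X'.toFinset ∪ Y'.toFinset) = Y' := by
      refine srt_sub b false S _ Y' hY fun x => ?_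
      rw [Finset.mem_union, List.mem_toFinset, List.mem_toFinset]
      constructor
      · rintro ⟨h | h, hb⟩
        · rw [(hX' x h).2] at hb
          exact absurd hb (by simp)
        · exact h
      · intro h
        exact ⟨Or.inr h, (hY' x h).2⟩
    refine ⟨X'.toFinset ∪ Y'.toFinset, ?_, ?_⟩
    · rw [Finset.mem_filter]
      refine ⟨mem_univ _, ?_, ?_⟩
      · rw [← srt_len_add b, e1, e2]
        exact tf_len G X' Y' hT
      · simp only
        rw [e1, e2]
        exact hT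
    · intro x hx
      rw [Finset.mem_union, List.mem_toFinset, List.mem_toFinset] at hx
      rcases hx with h | h
      · exact (hX' x h).1
      · exact (hY' x h).1

/-- `t(7,6) ≤ 121/512` -/
theorem tur_six : Pool.Agent.H369R2.TD.Tur 6 (121 / 512) :=
  Pool.Agent.H369R2.TD.OddT5.of_rnd rnd_six

end Pool.Agent.TH703.Tur
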