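import Mathlib

/-!
# Counting over codes (helper703)

`sumB m w` is the sum of `w` over all Boolean words of length `m`; for a list of different
coordinates of a function `G : ι → Bool` the word read off is uniform.
-/

open Finset

namespace Pool.Agent.TH703.Tur

/-- sum over the two values, in a form which the kernel evaluates fast -/
noncomputable def sm (f : Bool → ℕ) : ℕ := Nat.add (f true) (f false)

/-- conjunction over the two values -/
noncomputable def al (f : Bool → Bool) : Bool := Bool.rec false (f false) (f true)

theorem al_spec (f : Bool → Bool) (h : al f = true) (b : Bool) : f b = true := by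
  unfold al at h
  cases ht : f true <;> rw [ht] at h
  · exact absurd h (by simp)
  · cases b
    · exact h
    · exact ht

/-- exclusive or -/
noncomputable def xo (a b : Bool) : Bool := Bool.rec b (Bool.rec true false b) a

/-- disjunction -/
noncomputable def oo (a b : Bool) : Bool := Bool.rec b true a

/-- conjunction -/
noncomputable def aa (a b : Bool) : Bool := Bool.rec false b a

/-- negation -/
noncomputable def nn (a : Bool) : Bool := Bool.rec true false a

/-- `0` or `1` -/
noncomputable def tn (a : Bool) : ℕ := Bool.rec 0 1 a

theorem oo_iff {a b : Bool} : oo a b = true ↔ a = true ∨ b = true := by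
  cases a <;> cases b <;> simp [oo]

/-- the sum of `w` over all Boolean words of length `m` -/
noncomputable def sumB : ℕ → (List Bool → ℕ) → ℕ
  | 0, w => w []
  | m + 1, w => sm fun b => sumB m (fun l => w (b :: l))

theorem sumB_congr : ∀ (m : ℕ) (w w' : List Bool → ℕ), (∀ l : List Bool, l.length = m → w l = w' l) →
    sumB m w = sumB m w'
  | 0, w, w', h => h [] rfl
  | m + 1, w, w', h => by
      rw [sumB, sumB, sm, sm, sumB_congr m _ _ (fun l hl => h (true :: l) (by simp [hl])),
        sumB_congr m _ _ (fun l hl => h (false :: l) (by simp [hl]))]

variable {ι : Type} [Fintype ι] [DecidableEq ι]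

/-- flipping a coordinate which is not read -/
theorem sum_flip (c : ι) (cs : List ι) (hc : c ∉ cs) (w : List Bool → ℕ) (a : Bool) :
    2 * ∑ G : ι → Bool, (if G c = a then w (cs.map G) else 0) = ∑ G : ι → Bool, w (cs.map G) := by
  have h1 : ∑ G : ι → Bool, (if G c = a then w (cs.map G) else 0) =
      ∑ G : ι → Bool, (if ¬ G c = a then w (cs.map G) else 0) := by
    refine Finset.sum_nbij' (fun G => Function.update G c (! G c))
      (fun G => Function.update G c (! G c)) ?_ ?_ ?_ ?_ ?_
    · intro G _; exact mem_univ _
    · intro G _; exact mem_univ _
    · intro G _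
      funext x
      by_cases hx : x = c
      · subst hx; simp
      · simp [Function.update_of_ne hx]
    · intro G _
      funext x
      by_cases hx : x = c
      · subst hx; simp
      · simp [Function.update_of_ne hx]
    · intro G _
      have h2 : cs.map (Function.update G c (! G c)) = cs.map G := by
        apply List.map_congr_left
        intro x hx
        rw [Function.update_of_ne]
        rintro rfl
        exact hc hx
      rw [h2, Function.update_self]
      cases G c <;> cases a <;> simp
  have h2 : ∑ G : ι → Bool, w (cs.map G) = ∑ G : ι → Bool, (if G c = a then w (cs.map G) else 0) +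
      ∑ G : ι → Bool, (if ¬ G c = a then w (cs.map G) else 0) := by
    rw [← Finset.sum_add_distrib]
    refine Finset.sum_congr rfl fun G _ => ?_
    by_cases h : G c = a <;> simp [h]
  rw [h2, ← h1]
  ring

theorem sumB_eq : ∀ (cs : List ι), cs.Nodup → ∀ w : List Bool → ℕ,
    2 ^ cs.length * ∑ G : ι → Bool, w (cs.map G) = sumB cs.length w * Fintype.card (ι → Bool)
  | [], _, w => by
      simp [sumB, mul_comm]
  | c :: cs, hcs, w => by
      rw [List.nodup_cons] at hcs
      have ht := sumB_eq cs hcs.2 (fun l => w (true :: l))
      have hf := sumB_eq cs hcs.2 (fun l => w (false :: l))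
      have h1 : 2 * ∑ G : ι → Bool, w ((c :: cs).map G) =
          ∑ G : ι → Bool, w (true :: cs.map G) + ∑ G : ι → Bool, w (false :: cs.map G) := by
        rw [← sum_flip c cs hcs.1 (fun l => w (true :: l)) true,
          ← sum_flip c cs hcs.1 (fun l => w (false :: l)) false, ← mul_add,
          ← Finset.sum_add_distrib]
        congr 1
        refine Finset.sum_congr rfl fun G _ => ?_
        rw [List.map_cons]
        cases G c <;> simp
      rw [List.length_cons, pow_succ, mul_assoc, h1, mul_add, ht, hf, sumB, sm, Nat.add_eq]
      ring

end Pool.Agent.TH703.Tur
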