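import Pool.Agent.TH703.Tur.Cod

/-!
# The code for six points (helper703)

A 6-set whose points are coloured with two colours and which carries a graph is cut into its two
colour classes `X` (true) and `Y` (false).  The rules `p24`, `p33` say which 6-sets are taken.
-/

open Finset

namespace Pool.Agent.TH703.Tur

/-- two against four: `d` marks the points of the larger class at which the two rows differ; the
number of marked points has to be even and so has the number of edges between marked and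
unmarked points -/
noncomputable def p24 (d1 d2 d3 d4 y12 y13 y14 y23 y24 y34 : Bool) : Bool :=
  (Bool.rec (Bool.rec (Bool.rec (Bool.rec true false d4) (Bool.rec false (nn (xo y13 (xo y14 (xo
  y23 y24)))) d4) d3) (Bool.rec (Bool.rec false (nn (xo y12 (xo y14 (xo y23 y34)))) d4)
  (Bool.rec (nn (xo y12 (xo y13 (xo y24 y34)))) false d4) d3) d2) (Bool.rec (Bool.rec (Bool.rec
  false (nn (xo y12 (xo y13 (xo y24 y34)))) d4) (Bool.rec (nn (xo y12 (xo y14 (xo y23 y34))))
  false d4) d3) (Bool.rec (Bool.rec (nn (xo y13 (xo y14 (xo y23 y24)))) false d4) (Bool.rec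
  false true d4) d3) d2) d1)

/-- three against three: `p`, `q` are the differences of rows (the determinant of the rows `p`, `q`,
`(1,1,1)` must not vanish), `e` the parity of the number of edges inside the two classes -/
noncomputable def p33 (p1 p2 p3 q1 q2 q3 e : Bool) : Bool :=
  (Bool.rec (Bool.rec (Bool.rec false (aa (xo q1 q2) e) p3) (Bool.rec (aa (xo q1 q3) e) (aa (xo
  q2 q3) e) p3) p2) (Bool.rec (Bool.rec (aa (xo q2 q3) e) (aa (xo q1 q3) e) p3) (Bool.rec (aa
  (xo q1 q2) e) false p3) p2) p1)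

/-- the sum over all codes, two against four -/
noncomputable def sum24 : ℕ :=
  sm fun a1 => sm fun a2 => sm fun a3 => sm fun a4 => sm fun b1 => sm fun b2 => sm fun b3 => sm
  fun b4 => sm fun y12 => sm fun y13 => sm fun y14 => sm fun y23 => sm fun y24 => sm fun y34 =>
  tn (p24 (xo a1 b1) (xo a2 b2) (xo a3 b3) (xo a4 b4) y12 y13 y14 y23 y24 y34)

/-- the sum over all codes, three against three -/
noncomputable def sum33 : ℕ :=
  sm fun a1 => sm fun a2 => sm fun a3 => sm fun b1 => sm fun b2 => sm fun b3 => sm fun c1 => sm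
  fun c2 => sm fun c3 => sm fun x12 => sm fun x13 => sm fun x23 => sm fun y12 => sm fun y13 =>
  sm fun y23 => tn (p33 (xo a1 b1) (xo a2 b2) (xo a3 b3) (xo a1 c1) (xo a2 c2) (xo a3 c3) (xo
  x12 (xo x13 (xo x23 (xo y12 (xo y13 y23))))))

theorem sum24_eq : sum24 = 5120 := by decide +kernel

theorem sum33_eq : sum33 = 6144 := by decide +kernel

/-- two against five -/
noncomputable def chk25 : Bool :=
  al fun d1 => al fun d2 => al fun d3 => al fun d4 => al fun d5 => al fun y12 => al fun y13 =>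
  al fun y14 => al fun y15 => al fun y23 => al fun y24 => al fun y25 => al fun y34 => al fun y35
  => al fun y45 => (oo (p24 d2 d3 d4 d5 y23 y24 y25 y34 y35 y45) (oo (p24 d1 d3 d4 d5 y13 y14
  y15 y34 y35 y45) (oo (p24 d1 d2 d4 d5 y12 y14 y15 y24 y25 y45) (oo (p24 d1 d2 d3 d5 y12 y13
  y15 y23 y25 y35) (p24 d1 d2 d3 d4 y12 y13 y14 y23 y24 y34)))))

/-- three against four -/
noncomputable def chk34 : Bool :=
  al fun p1 => al fun p2 => al fun p3 => al fun p4 => al fun q1 => al fun q2 => al fun q3 => al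
  fun q4 => al fun y12 => al fun y13 => al fun y14 => al fun y23 => al fun y24 => al fun y34 =>
  al fun e => (oo (p24 p1 p2 p3 p4 y12 y13 y14 y23 y24 y34) (oo (p24 q1 q2 q3 q4 y12 y13 y14 y23
  y24 y34) (oo (p24 (xo p1 q1) (xo p2 q2) (xo p3 q3) (xo p4 q4) y12 y13 y14 y23 y24 y34) (oo
  (p33 p2 p3 p4 q2 q3 q4 (xo e (xo y23 (xo y24 y34)))) (oo (p33 p1 p3 p4 q1 q3 q4 (xo e (xo y13
  (xo y14 y34)))) (oo (p33 p1 p2 p4 q1 q2 q4 (xo e (xo y12 (xo y14 y24)))) (p33 p1 p2 p3 q1 q2
  q3 (xo e (xo y12 (xo y13 y23))))))))))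

theorem chk25_eq : chk25 = true := by decide +kernel

theorem chk34_eq : chk34 = true := by decide +kernel

theorem chk25_spec (d1 d2 d3 d4 d5 y12 y13 y14 y15 y23 y24 y25 y34 y35 y45 : Bool) :
    p24 d2 d3 d4 d5 y23 y24 y25 y34 y35 y45 = true ∨
    p24 d1 d3 d4 d5 y13 y14 y15 y34 y35 y45 = true ∨
    p24 d1 d2 d4 d5 y12 y14 y15 y24 y25 y45 = true ∨
    p24 d1 d2 d3 d5 y12 y13 y15 y23 y25 y35 = true ∨
    p24 d1 d2 d3 d4 y12 y13 y14 y23 y24 y34 = true := by
  have h := chk25_eq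
  have h2 := al_spec _ (al_spec _ (al_spec _ (al_spec _ (al_spec _ (al_spec _ (al_spec _ (al_spec _ (al_spec _ (al_spec _ (al_spec _ (al_spec _ (al_spec _ (al_spec _ (al_spec _ h d1) d2) d3) d4) d5) y12) y13) y14) y15) y23) y24) y25) y34) y35) y45
  simpa only [oo_iff] using h2

theorem chk34_spec (p1 p2 p3 p4 q1 q2 q3 q4 y12 y13 y14 y23 y24 y34 e : Bool) :
    p24 p1 p2 p3 p4 y12 y13 y14 y23 y24 y34 = true ∨
    p24 q1 q2 q3 q4 y12 y13 y14 y23 y24 y34 = true ∨
    p24 (xo p1 q1) (xo p2 q2) (xo p3 q3) (xo p4 q4) y12 y13 y14 y23 y24 y34 = true ∨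
    p33 p2 p3 p4 q2 q3 q4 (xo e (xo y23 (xo y24 y34))) = true ∨
    p33 p1 p3 p4 q1 q3 q4 (xo e (xo y13 (xo y14 y34))) = true ∨
    p33 p1 p2 p4 q1 q2 q4 (xo e (xo y12 (xo y14 y24))) = true ∨
    p33 p1 p2 p3 q1 q2 q3 (xo e (xo y12 (xo y13 y23))) = true := by
  have h := chk34_eq
  have h2 := al_spec _ (al_spec _ (al_spec _ (al_spec _ (al_spec _ (al_spec _ (al_spec _ (al_spec _ (al_spec _ (al_spec _ (al_spec _ (al_spec _ (al_spec _ (al_spec _ (al_spec _ h p1) p2) p3) p4) q1) q2) q3) q4) y12) y13) y14) y23) y24) y34) e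
  simpa only [oo_iff] using h2

/-- rows and columns give the same rule -/
noncomputable def chkT : Bool :=
  al fun a1 => al fun a2 => al fun a3 => al fun b1 => al fun b2 => al fun b3 => al fun c1 => al
  fun c2 => al fun c3 => al fun e =>
  nn (xo (p33 (xo a1 b1) (xo a2 b2) (xo a3 b3) (xo a1 c1) (xo a2 c2) (xo a3 c3) e)
    (p33 (xo a1 a2) (xo b1 b2) (xo c1 c2) (xo a1 a3) (xo b1 b3) (xo c1 c3) e))

theorem chkT_eq : chkT = true := by decide +kernel

theorem nn_xo {a b : Bool} (h : nn (xo a b) = true) : a = b := by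
  cases a <;> cases b <;> simp_all [nn, xo]

theorem p33_tr (a1 a2 a3 b1 b2 b3 c1 c2 c3 e : Bool) :
    p33 (xo a1 b1) (xo a2 b2) (xo a3 b3) (xo a1 c1) (xo a2 c2) (xo a3 c3) e =
    p33 (xo a1 a2) (xo b1 b2) (xo c1 c2) (xo a1 a3) (xo b1 b3) (xo c1 c3) e :=
  nn_xo (al_spec _ (al_spec _ (al_spec _ (al_spec _ (al_spec _ (al_spec _ (al_spec _ (al_spec _
    (al_spec _ (al_spec _ chkT_eq a1) a2) a3) b1) b2) b3) c1) c2) c3) e)

theorem xo_assoc (a b c : Bool) : xo (xo a b) c = xo a (xo b c) := by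
  cases a <;> cases b <;> cases c <;> rfl

theorem xo_cancel (a b c : Bool) : xo (xo a b) (xo a c) = xo b c := by
  cases a <;> cases b <;> cases c <;> rfl

end Pool.Agent.TH703.Tur
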